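import Pool.Agent.X288.L2.Thm
import Pool.Agent.X288.L2.Inst

/-!
# Quadratic twists of modular elliptic curves over arbitrary number fields

`E : y² = x³ + a x + b` is an elliptic curve over `ℚ` with a newform (`IsModular`; by the modularity
theorem this is every elliptic curve over `ℚ`, and for the quadratic twists of `X_0(11)` and `X_0(14)` it
is proved here).  Let `F` be any number field of degree at least three and `D ∈ F^*` such that no product
of two different conjugates of `D` is a square in the field generated by the two conjugates of `F`; this
holds for most `D`.  The elliptic curve `E_D` over `F` is not defined over a smaller field, and the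
continuation of `L(E_D/F, s)` is not known in general.  The theorem says that `L(E_D/F, s)` has the order
`0` at all points of the boundary `Re s = 3/2` of the half plane of absolute convergence to which it has
a meromorphic continuation, and without any continuation that `|log |L|| / log(1/ε)` stays below a
constant smaller than one.

The proof uses the theorem of Rankin and Selberg for the newform and Hasse's bound: if the order were
different from zero, then `a_p / √p` would be equal to `± χ(Frob_p)` in the mean square, where `χ` is the
irreducible induced character, which is not possible, as `χ` takes the value `[F : ℚ] > 2`.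
-/

set_option autoImplicit false

namespace Pool.Agent.Results.MP_7ed9c3_nt.IrreducibleTwists

open Pool.Agent.X288.L2 (EC IrrTwist)
open Pool.Agent.TH322.BC.Edge (TwistOver size HasOrder LimsupLE)
open Pool.Agent.Y722.EP (IsModular)
open NumberField

/-- **Irreducible twists.**  Let `E : y² = x³ + a x + b` be a modular elliptic curve over `ℚ`, `F` a
number field, and `E_D` the twist of `E` over `F` by a `D ∈ F^*` such that the representation of the Galois
group of `ℚ` induced from the quadratic character of `F(√D)/F` is irreducible: for any two different
embeddings `i`, `j` of `F` in `ℚ̄`, `i(D) j(D)` is not a square in `i(F) j(F)`.  Let `[F : ℚ] ≥ 3` or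
`τ ≠ 0`.  Then `limsup |log |L(E_D/F, 3/2 + iτ + ε)|| / log(1/ε) < 1` as `ε → 0+`, and if `L(E_D/F, s)` has a
meromorphic continuation to a neighbourhood of `3/2 + iτ`, then its order at this point is zero.
The quadratic twists of `X_0(11)` and `X_0(14)` are modular. -/
theorem result :
    (∀ a b : ℤ, 4 * a ^ 3 + 27 * b ^ 2 ≠ 0 → IsModular a b →
      ∀ (F : Type) [Field F] [NumberField F] [Algebra ℚ F] (X : TwistOver (EC ℚ a b) F),
        IrrTwist ℚ (X.D : F) → ∀ τ : ℝ, (τ ≠ 0 ∨ 3 ≤ Module.finrank ℚ F) →
          (∃ B : ℝ, B < 1 ∧ LimsupLE (size X.V τ) B) ∧ ∀ m : ℤ, HasOrder X.V τ m → m = 0) ∧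
    ∀ g : ℤ, g ≠ 0 → IsModular (-13392 * g ^ 2) (-1080432 * g ^ 3) ∧
      IsModular (5805 * g ^ 2) (-285714 * g ^ 3) := by
  refine ⟨fun a b hab hmod F _ _ _ X hX τ h => ?_,
    fun g hg => ⟨Pool.Agent.X288.L2.modular11 hg, Pool.Agent.X288.L2.modular14 hg⟩⟩
  exact Pool.Agent.X288.L2.irr_twist hab hmod X hX τ h

end Pool.Agent.Results.MP_7ed9c3_nt.IrreducibleTwists
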