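import Pool.Agent.X288.CX.Bes2


/-!
# One number field and all elliptic curves over `ℚ`

`E_i : y² = x³ + a_i x + b_i`, `i ∈ ι`, are elliptic curves over `ℚ`, no two of them isogenous, for
example representatives of all isogeny classes; each has a newform (`IsModular`; by the modularity
theorem this is true for all elliptic curves over `ℚ`).  Let `F` be a fixed number field, of any degree
and with any Galois group.  The continuation of `L(E_i/F, s)` beyond the line `Re s = 3/2` is not known
in general.  The theorem is about the zeros and poles on this line of all continuations, for all `i` and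
all points of the line together: **with at most `2 r` exceptions (pairs of an isogeny class and a point of
the line), there is neither a zero nor a pole**, where `r ≤ [F : ℚ]` is the number of the orbits of the
Galois group on the pairs of embeddings of `F` in `ℚ̄`; and with at most `2 (r - 1)` exceptions `L(E_i/F, s)`
and `L(E_i/ℚ, s)` have the same order.  More generally it is about all quadratic twists over several number
fields, with linear combinations of the orders.

The proof uses the theorem of Rankin and Selberg for pairs of newforms, at all heights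
(`Pool.Agent.Y149.CR`, `Pool.Agent.Y722.RS`), and Chebotarev's theorem.
-/

set_option autoImplicit false

namespace Pool.Agent.Results.MP_7ed9c3_nt.OneFieldAllCurves

open Filter Topology NumberField IsDedekindDomain
open Pool.Agent.W353.EF (perm)
open Pool.Agent.X288.L2 (EC pairOrbits)
open Pool.Agent.Y722.EP (IsModular NotIsogenous)
open Pool.Agent.TH322.BC.Edge (MinimalModels twist size HasOrder character)

/-- The absolute Galois group of `K`. -/
abbrev GalGroup (K : Type) [Field K] : Type := Gal(AlgebraicClosure K/K)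

/-- The mean value of `(∑ c_k χ_k)²` over `Gal(ℚ̄/ℚ) / U`, where `χ_k` is the character induced from the
quadratic character of `F_k(√D_k)/F_k`; the characters only depend on the cosets of the open normal
subgroup `U`. -/
noncomputable def meanSquare (U : Subgroup (GalGroup ℚ)) {κ : Type} [Fintype κ] (F : κ → Type)
    [∀ k, Field (F k)] [∀ k, NumberField (F k)] [∀ k, Algebra ℚ (F k)] (D : ∀ k, 𝓞 (F k))
    (c : κ → ℝ) : ℝ :=
  ∑ k, ∑ l, c k * c l * ((Nat.card (GalGroup ℚ ⧸ U) : ℝ)⁻¹ * ∑ᶠ q : GalGroup ℚ ⧸ U,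
    (character (K := ℚ) (D k : F k) q.out : ℝ) * (character (K := ℚ) (D l : F l) q.out : ℝ))

/-- **One number field and all elliptic curves over `ℚ`.**  Let `E_i : y² = x³ + a_i x + b_i`, `i ∈ ι`, be
modular elliptic curves over `ℚ`, pairwise not isogenous.

1. Let `F_k` be finitely many number fields, `D_k ∈ F_k^*`, `E_{i,k}` the twist of `E_i` over `F_k` by the
quadratic character of `F_k(√D_k)/F_k`, and for real `c_k` let `Q(c)` be the mean value of `(∑ c_k χ_k)²`,
`χ_k` the induced character of `Gal(ℚ̄/ℚ)`.  For every finite set `S` of pairs `(i, τ)`, `C`, `η > 0` and all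
small `ε > 0`, the sum over `(i, τ) ∈ S` of the squares of the positive parts of
`∑_k c_k log |L(E_{i,k}, 3/2 + iτ + ε)| / log(1/ε)` is at most `Q(c) + η`, for all real `c_k`, `|c_k| ≤ C`
(nothing is assumed about continuation).  For a set `T` of pairs `(i, τ)` such that all
`L(E_{i,k}, s)` have meromorphic continuations to neighbourhoods of `3/2 + iτ`, of orders `m_{i,τ,k}`, and
integers `c_k`, there are at most `Q(c)` pairs in `T` with `∑_k c_k m_{i,τ,k} > 0`; replacing `c` by `-c`,
the same holds for `< 0`.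
2. Let `F` be a number field and `r` the number of the orbits of the Galois group on the pairs of
embeddings of `F`.  For a set `T` of pairs `(i, τ)` such that `L(E_i/F, s)` has a meromorphic continuation
to a neighbourhood of `3/2 + iτ`, there are at most `r` pairs in `T` with a zero at this point and at most
`r` with a pole.  If `L(E_i/ℚ, s)` has a continuation, too, then for at most `r - 1` pairs in `T` the order
of `L(E_i/F, s)` is larger, and for at most `r - 1` it is smaller. -/
theorem result (ι : Type) (a b : ι → ℤ) (hab : ∀ i, 4 * a i ^ 3 + 27 * b i ^ 2 ≠ 0)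
    (hmod : ∀ i, IsModular (a i) (b i))
    (hne : ∀ i j, i ≠ j → NotIsogenous (a i) (b i) (a j) (b j)) :
    (∀ (κ : Type) [Fintype κ] (F : κ → Type) [∀ k, Field (F k)] [∀ k, NumberField (F k)]
      [∀ k, Algebra ℚ (F k)] (D : ∀ k, 𝓞 (F k)), (∀ k, D k ≠ 0) →
      ∀ V : ι → ∀ k, HeightOneSpectrum (𝓞 (F k)) → WeierstrassCurve (𝓞 (F k)),
      (∀ i k, MinimalModels (twist ((EC ℚ (a i) (b i)).map (algebraMap ℚ (F k))) (D k : F k))
        (V i k)) →
      ∀ (U : Subgroup (GalGroup ℚ)) [U.Normal], IsOpen (U : Set (GalGroup ℚ)) →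
      (∀ k, ∀ u ∈ U, perm ℚ (F k) u = 1 ∧
        ∀ i : F k →ₐ[ℚ] AlgebraicClosure ℚ, ∀ s : AlgebraicClosure ℚ, s ^ 2 = i (D k) → u s = s) →
      (∀ (S : Finset (ι × ℝ)) (C η : ℝ), 0 < η → ∀ᶠ ε : ℝ in 𝓝[>] 0, ∀ c : κ → ℝ,
        (∀ k, |c k| ≤ C) → ∑ x ∈ S, (max (∑ k, c k * size (V x.1 k) x.2 ε) 0) ^ 2 ≤
          meanSquare U F D c + η) ∧
      ∀ (T : Set (ι × ℝ)) (m : ι × ℝ → κ → ℤ),
        (∀ x ∈ T, ∀ k, HasOrder (V x.1 k) x.2 (m x k)) → ∀ c : κ → ℤ,
          {x ∈ T | 0 < ∑ k, c k * m x k}.Finite ∧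
          ({x ∈ T | 0 < ∑ k, c k * m x k}.ncard : ℝ) ≤ meanSquare U F D fun k => c k) ∧
    (∀ (F : Type) [Field F] [NumberField F] [Algebra ℚ F]
      (V₀ : ι → HeightOneSpectrum (𝓞 ℚ) → WeierstrassCurve (𝓞 ℚ))
      (V : ι → HeightOneSpectrum (𝓞 F) → WeierstrassCurve (𝓞 F)),
      (∀ i, MinimalModels (EC ℚ (a i) (b i)) (V₀ i)) →
      (∀ i, MinimalModels ((EC ℚ (a i) (b i)).map (algebraMap ℚ F)) (V i)) →
      ∀ (T : Set (ι × ℝ)) (m : ι × ℝ → ℤ), (∀ x ∈ T, HasOrder (V x.1) x.2 (m x)) →
        ({x ∈ T | 0 < m x}.Finite ∧ {x ∈ T | 0 < m x}.ncard ≤ pairOrbits ℚ F) ∧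
        ({x ∈ T | m x < 0}.Finite ∧ {x ∈ T | m x < 0}.ncard ≤ pairOrbits ℚ F) ∧
        ∀ m₀ : ι × ℝ → ℤ, (∀ x ∈ T, HasOrder (V₀ x.1) x.2 (m₀ x)) →
          ({x ∈ T | m₀ x < m x}.Finite ∧ {x ∈ T | m₀ x < m x}.ncard + 1 ≤ pairOrbits ℚ F) ∧
          ({x ∈ T | m x < m₀ x}.Finite ∧ {x ∈ T | m x < m₀ x}.ncard + 1 ≤ pairOrbits ℚ F)) := by
  classical
  choose σ hσ using X288.CX.frob_exists
  constructor
  · intro κ _ F _ _ _ D hD V hV U _ hU hker
    have hX := X288.CX.szH_twist hab D hD V hV σ hσ
    have hcl := X288.CX.cls_twist D hD (U := U) hker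
    have hQ : ∀ c : κ → ℝ, meanSquare U F D c = ∑ k, ∑ l, c k * c l * W353.L1.avR U fun q =>
        (TH322.BC.chi ℚ (D k : F k) q.out : ℝ) * (TH322.BC.chi ℚ (D l : F l) q.out : ℝ) := by
      intro c
      unfold meanSquare W353.L1.avR
      simp only [TH322.BC.Edge.character_eq (TH322.BC.Edge.coe_ne (hD _))]
    have hmain : ∀ (S : Finset (ι × ℝ)) (C η : ℝ), 0 < η → ∀ᶠ ε : ℝ in 𝓝[>] 0, ∀ c : κ → ℝ,
        (∀ k, |c k| ≤ C) → ∑ x ∈ S, (max (∑ k, c k * size (V x.1 k) x.2 ε) 0) ^ 2 ≤
          meanSquare U F D c + η := by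
      intro S C η hη
      simp only [hQ]
      exact X288.CX.bessel_cls (U := U) hab hmod hne hU hcl hσ hX S C hη
    refine ⟨hmain, fun T m hm c => ?_⟩
    have hcount := X288.CX.count_of (T := T) (y := fun x => ∑ k, (-c k) * (-m x k))
      (Q := meanSquare U F D fun k => -(c k : ℝ)) fun S hS => by
        refine X288.CX.pos_orders (Y := fun x ε => ∑ k, -(c k : ℝ) * size (V x.1 k) x.2 ε)
          (fun x hx => ?_) fun η hη => ?_
        · have h1 : Tendsto (fun ε : ℝ => ∑ k, -(c k : ℝ) * size (V x.1 k) x.2 ε) (𝓝[>] 0)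
              (𝓝 (∑ k, -(c k : ℝ) * (-(m x k : ℝ)))) :=
            tendsto_finsetSum _ fun k _ => (TH322.BC.Edge.orders
              (X288.CX.ne_twist hab D hD V hV x.1 k x.2) (hm x (hS x hx) k)).const_mul _
          convert h1 using 2
          push_cast
          rfl
        · filter_upwards [hmain S (∑ k, |(c k : ℝ)|) η hη] with ε h1
          exact h1 _ fun k => by
            rw [abs_neg]
            exact Finset.single_le_sum (f := fun k => |(c k : ℝ)|) (fun k _ => abs_nonneg _)
              (Finset.mem_univ k)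
    have e1 : ∀ x, ∑ k, (-c k) * (-m x k) = ∑ k, c k * m x k := fun x =>
      Finset.sum_congr rfl fun k _ => by ring
    have e2 : (meanSquare U F D fun k => -(c k : ℝ)) = meanSquare U F D fun k => (c k : ℝ) := by
      unfold meanSquare
      refine Finset.sum_congr rfl fun k _ => Finset.sum_congr rfl fun l _ => ?_
      ring
    simp only [e1, e2] at hcount
    exact hcount
  · intro F _ _ _ V₀ V hV₀ hV T m hm
    have hU := W353.NF.ker_act_open ℚ F
    have hfin : Finite (GalGroup ℚ ⧸ (W353.NF.act ℚ F).ker) := Subgroup.quotient_finite_of_isOpen _ hU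
    -- the orders
    have hmt : ∀ x ∈ T, Tendsto (size (V x.1) x.2) (𝓝[>] 0) (𝓝 (-(m x : ℝ))) := fun x hx =>
      TH322.BC.Edge.orders (X288.CX.ne_base (hab x.1) (hV x.1) x.2) (hm x hx)
    have main1 : ∀ (e : ℤ), |(e : ℝ)| ≤ 1 → ∀ S : Finset (ι × ℝ), (∀ x ∈ S, x ∈ T) →
        ∑ x ∈ S, (max (((e * m x : ℤ)) : ℝ) 0) ^ 2 ≤ (e : ℝ) ^ 2 * pairOrbits ℚ F := by
      intro e he S hS
      refine X288.CX.pos_orders (Y := fun x ε => -(e : ℝ) * size (V x.1) x.2 ε)
        (fun x hx => ?_) fun η hη => ?_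
      · have h1 := (hmt x (hS x hx)).const_mul (-(e : ℝ))
        convert h1 using 2
        push_cast
        ring
      · have h1 := X288.CX.bessel_cls (κ := Unit) hab hmod hne hU
          (ψ := fun _ g => (W353.NF.fixn ℚ F g : ℝ)) (fun _ => X288.CX.cls_fix F) hσ
          (X := fun i _ τ ε => size (V i) τ ε)
          (fun i _ τ => X288.CX.szH_base (hab i) (hV i) σ hσ τ) S 1 hη
        filter_upwards [h1] with ε h2
        have h3 := h2 (fun _ => -(e : ℝ)) fun _ => by rwa [abs_neg]
        simp only [Finset.univ_unique, Finset.sum_singleton] at h3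
        have h4 : (W353.L1.avR (W353.NF.act ℚ F).ker fun q =>
            (W353.NF.fixn ℚ F q.out : ℝ) * (W353.NF.fixn ℚ F q.out : ℝ)) = pairOrbits ℚ F := by
          rw [← X288.L2.mean_fix_orbits]
          congr 1
          funext q
          ring
        rw [h4] at h3
        refine h3.trans (le_of_eq ?_)
        ring
    have hcnt1 := X288.CX.count_of (T := T) (y := fun x => 1 * m x) (Q := pairOrbits ℚ F)
      fun S hS => by
        have := main1 1 (by norm_num) S hS
        simpa using this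
    have hcnt2 := X288.CX.count_of (T := T) (y := fun x => (-1) * m x) (Q := pairOrbits ℚ F)
      fun S hS => by
        have := main1 (-1) (by norm_num) S hS
        simpa using this
    have e1 : {x ∈ T | 0 < 1 * m x} = {x ∈ T | 0 < m x} := by
      ext x
      simp
    have e2 : {x ∈ T | 0 < (-1) * m x} = {x ∈ T | m x < 0} := by
      ext x
      simp
    rw [e1] at hcnt1
    rw [e2] at hcnt2
    refine ⟨⟨hcnt1.1, by exact_mod_cast hcnt1.2⟩, ⟨hcnt2.1, by exact_mod_cast hcnt2.2⟩,
      fun m₀ hm₀ => ?_⟩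
    have hV₀' : ∀ i, MinimalModels ((EC ℚ (a i) (b i)).map (algebraMap ℚ ℚ)) (V₀ i) := fun i => by
      have : (EC ℚ (a i) (b i)).map (algebraMap ℚ ℚ) = EC ℚ (a i) (b i) :=
        (EC ℚ (a i) (b i)).map_id
      rw [this]
      exact hV₀ i
    have hmt₀ : ∀ x ∈ T, Tendsto (size (V₀ x.1) x.2) (𝓝[>] 0) (𝓝 (-(m₀ x : ℝ))) := fun x hx =>
      TH322.BC.Edge.orders (X288.CX.ne_base (hab x.1) (hV₀' x.1) x.2) (hm₀ x hx)
    have main2 : ∀ (e : ℤ), |(e : ℝ)| ≤ 1 → ∀ S : Finset (ι × ℝ), (∀ x ∈ S, x ∈ T) →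
        ∑ x ∈ S, (max (((e * (m x - m₀ x) : ℤ)) : ℝ) 0) ^ 2 ≤
          (e : ℝ) ^ 2 * (pairOrbits ℚ F - 1) := by
      intro e he S hS
      refine X288.CX.pos_orders
        (Y := fun x ε => -(e : ℝ) * (size (V x.1) x.2 ε - size (V₀ x.1) x.2 ε))
        (fun x hx => ?_) fun η hη => ?_
      · have h1 := ((hmt x (hS x hx)).sub (hmt₀ x (hS x hx))).const_mul (-(e : ℝ))
        convert h1 using 2
        push_cast
        ring
      · have h1 := X288.CX.bessel_cls (κ := Unit) hab hmod hne hU
          (ψ := fun _ g => (W353.NF.fixn ℚ F g : ℝ) - 1) (fun _ => X288.CX.cls_fix1 F) hσ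
          (X := fun i _ τ ε => size (V i) τ ε - size (V₀ i) τ ε)
          (fun i _ τ => X288.CX.szH_diff (hab i) (hV₀' i) (hV i) σ hσ τ) S 1 hη
        filter_upwards [h1] with ε h2
        have h3 := h2 (fun _ => -(e : ℝ)) fun _ => by rwa [abs_neg]
        simp only [Finset.univ_unique, Finset.sum_singleton] at h3
        have h4 : (W353.L1.avR (W353.NF.act ℚ F).ker fun q =>
            ((W353.NF.fixn ℚ F q.out : ℝ) - 1) * ((W353.NF.fixn ℚ F q.out : ℝ) - 1)) =
              pairOrbits ℚ F - 1 := by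
          rw [← X288.L2.mean_fix_sub_sq]
          congr 1
          funext q
          ring
        rw [h4] at h3
        refine h3.trans (le_of_eq ?_)
        ring
    have hcnt3 := X288.CX.count_of (T := T) (y := fun x => 1 * (m x - m₀ x))
      (Q := pairOrbits ℚ F - 1) fun S hS => by
        have := main2 1 (by norm_num) S hS
        simpa using this
    have hcnt4 := X288.CX.count_of (T := T) (y := fun x => (-1) * (m x - m₀ x))
      (Q := pairOrbits ℚ F - 1) fun S hS => by
        have := main2 (-1) (by norm_num) S hS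
        simpa using this
    have e3 : {x ∈ T | 0 < 1 * (m x - m₀ x)} = {x ∈ T | m₀ x < m x} := by
      ext x
      simp
    have e4 : {x ∈ T | 0 < (-1) * (m x - m₀ x)} = {x ∈ T | m x < m₀ x} := by
      ext x
      simp
    rw [e3] at hcnt3
    rw [e4] at hcnt4
    refine ⟨⟨hcnt3.1, ?_⟩, hcnt4.1, ?_⟩
    · have : (({x ∈ T | m₀ x < m x}.ncard + 1 : ℕ) : ℝ) ≤ (pairOrbits ℚ F : ℝ) := by
        push_cast
        linarith [hcnt3.2]
      exact_mod_cast this
    · have : (({x ∈ T | m x < m₀ x}.ncard + 1 : ℕ) : ℝ) ≤ (pairOrbits ℚ F : ℝ) := by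
        push_cast
        linarith [hcnt4.2]
      exact_mod_cast this

end Pool.Agent.Results.MP_7ed9c3_nt.OneFieldAllCurves
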