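import Pool.Agent.X288.CX.QC

/-!
# `ℚ`-curves over arbitrary number fields on the edge `Re s = 3/2`

Let `f` be a newform of weight two, of any level and any nebentypus, and `R` a representation of the
absolute Galois group of `ℚ` with finite image.  An elliptic curve `E` over an arbitrary number field `F`
belongs to `f` and `R` if for almost all prime numbers `p` the sum of the traces of Frobenius `a_v(E)` over
the primes `v` of `F` of norm `p` is `a_p(f) tr R(Frob_p⁻¹)`.  By the modularity theorem (Ribet; Khare and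
Wintenberger) these are, up to the curves with complex multiplication, exactly the `ℚ`-curves: the
elliptic curves over number fields that are isogenous over `ℚ̄` to all their conjugates; for them `R` is
the representation induced from a character `χ` of `Gal(F̄/F)` of finite order, and
`L(E, s) = L(f ⊗ R, s)`.  For elliptic curves defined over `ℚ` and their twists `f` has the trivial
character and rational coefficients; here the coefficients of `f` are arbitrary.

The continuation of `L(E, s)` is not known for `ℚ`-curves over general number fields `F`.  The theorem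
bounds `log |L(E, s)|` near the line `Re s = 3/2`, and with it the orders of all meromorphic
continuations to neighbourhoods of points of the line, for all the `E` that belong to `f` together.

The proof uses the theorem of Rankin and Selberg for `f` (the mean of `|a_p|²/p` is one), Chebotarev's
theorem with heights, and the orthogonality of characters.
-/

set_option autoImplicit false

namespace Pool.Agent.Results.MP_7ed9c3_nt.QCurves

open Complex Filter Topology NumberField IsDedekindDomain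
open MatrixGroups CongruenceSubgroup
open UpperHalfPlane hiding I
open Pool.Agent.TH322.BC.Edge (MinimalModels size HasOrder)

/-- The absolute Galois group of `ℚ`. -/
abbrev GalQ : Type := Gal(AlgebraicClosure ℚ/ℚ)

/-- `f` has the properties of a newform of weight two, level `N` and nebentypus `ψ`: it transforms under
`Γ₀(N)` with `ψ`, its coefficients `a(n)` satisfy `a(1) = 1`, `a(m n) = a(m) a(n)` for coprime `m`, `n`,
`a(p^{j+2}) = a(p) a(p^{j+1}) - ψ(p) p a(p^j)`, and for the primes `p ∤ N` they satisfy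
`conj a(p) = conj ψ(p) a(p)` and `|a(p)| ≤ 2 √p`. -/
structure IsNewform (N : ℕ) (ψ : DirichletCharacter ℂ N)
    (f : CuspForm (Gamma1 N : Subgroup (GL (Fin 2) ℝ)) 2) : Prop where
  neb : ∀ γ : SL(2, ℤ), γ ∈ Gamma0 N → ∀ τ : ℍ,
    f (γ • τ) = ψ ((γ 1 1 : ℤ) : ZMod N) * (denom γ τ) ^ (2 : ℤ) * f τ
  one : (qExpansion 1 f).coeff 1 = 1
  mul : ∀ m n : ℕ, Nat.Coprime m n → (qExpansion 1 f).coeff (m * n) =
    (qExpansion 1 f).coeff m * (qExpansion 1 f).coeff n
  pow : ∀ p j : ℕ, p.Prime → (qExpansion 1 f).coeff (p ^ (j + 2)) =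
    (qExpansion 1 f).coeff p * (qExpansion 1 f).coeff (p ^ (j + 1)) -
      ψ (p : ZMod N) * (p : ℂ) * (qExpansion 1 f).coeff (p ^ j)
  conj : ∀ p : ℕ, p.Prime → ¬ p ∣ N → (starRingEnd ℂ) ((qExpansion 1 f).coeff p) =
    (starRingEnd ℂ) (ψ (p : ZMod N)) * (qExpansion 1 f).coeff p
  bound : ∀ p : ℕ, p.Prime → ¬ p ∣ N → ‖(qExpansion 1 f).coeff p‖ ≤ 2 * Real.sqrt p

/-- `σ` is a Frobenius element at the prime `p` of `ℚ`: there is a maximal ideal `Q` above `p` of the
ring of all algebraic integers with `σ x ≡ x ^ N(p)` modulo `Q` for all `x`. -/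
def IsFrobenius (p : HeightOneSpectrum (𝓞 ℚ)) (σ : GalQ) : Prop :=
  ∃ Q : Ideal (𝓞 (AlgebraicClosure ℚ)), Q.IsMaximal ∧
    Q.comap (algebraMap (𝓞 ℚ) (𝓞 (AlgebraicClosure ℚ))) = p.asIdeal ∧
    ∀ x : 𝓞 (AlgebraicClosure ℚ), σ • x - x ^ Ideal.absNorm p.asIdeal ∈ Q

/-- `a_v`: the number of elements of the residue field minus the number of the affine points of the
reduction of the model `V v`; for a prime of good reduction it is `q_v + 1 - #E(k_v)`. -/
noncomputable def localTrace {F : Type} [Field F] [NumberField F]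
    (V : HeightOneSpectrum (𝓞 F) → WeierstrassCurve (𝓞 F)) (v : HeightOneSpectrum (𝓞 F)) : ℤ :=
  ((Ideal.absNorm v.asIdeal : ℕ) : ℤ) -
    ((Nat.card {p : (𝓞 F ⧸ v.asIdeal) × (𝓞 F ⧸ v.asIdeal) //
      p.2 ^ 2 + Ideal.Quotient.mk v.asIdeal (V v).a₁ * p.1 * p.2
        + Ideal.Quotient.mk v.asIdeal (V v).a₃ * p.2
      = p.1 ^ 3 + Ideal.Quotient.mk v.asIdeal (V v).a₂ * p.1 ^ 2
        + Ideal.Quotient.mk v.asIdeal (V v).a₄ * p.1
        + Ideal.Quotient.mk v.asIdeal (V v).a₆} : ℕ) : ℤ)

/-- `R` is an Artin representation: it is trivial on an open subgroup of `Gal(ℚ̄/ℚ)`. -/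
def IsArtin {n : ℕ} (R : Representation ℂ GalQ (Fin n → ℂ)) : Prop :=
  ∃ U : Subgroup GalQ, IsOpen (U : Set GalQ) ∧ ∀ u ∈ U, R u = 1

/-- An elliptic curve over the number field `F`, with its minimal models, that belongs to `f` and to an
Artin representation `R` of `ℚ`: for all but finitely many prime numbers `p` the sum of the traces `a_v`
over the primes `v` of `F` of norm `p` is `a_p(f) tr R(Frob_p⁻¹)`. -/
structure CurveOf {N : ℕ} (f : CuspForm (Gamma1 N : Subgroup (GL (Fin 2) ℝ)) 2) (F : Type) [Field F]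
    [NumberField F] where
  E : WeierstrassCurve F
  elliptic : E.IsElliptic
  V : HeightOneSpectrum (𝓞 F) → WeierstrassCurve (𝓞 F)
  minimal : MinimalModels E V
  n : ℕ
  R : Representation ℂ GalQ (Fin n → ℂ)
  artin : IsArtin R
  belongs : ∀ᶠ p : HeightOneSpectrum (𝓞 ℚ) in cofinite, ∀ σ : GalQ, IsFrobenius p σ →
    ((∑ᶠ v : {v : HeightOneSpectrum (𝓞 F) //
      Ideal.absNorm v.asIdeal = Ideal.absNorm p.asIdeal}, localTrace V v.1 : ℤ) : ℂ) =
        (qExpansion 1 f).coeff (Ideal.absNorm p.asIdeal) * R.character σ⁻¹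

open Classical in
/-- `⟨k, l⟩`: the dimension of `Hom(R_k, R_l)` if `τ_k = τ_l`, and `0` otherwise. -/
noncomputable def pairing {κ : Type} {n : κ → ℕ}
    (R : ∀ k, Representation ℂ GalQ (Fin (n k) → ℂ)) (τ : κ → ℝ) (k l : κ) : ℝ :=
  if τ k = τ l then (Module.finrank ℂ ((R k).IntertwiningMap (R l)) : ℝ) else 0

/-- **`ℚ`-curves over arbitrary number fields on the edge `Re s = 3/2`.**

Let `f` be a newform of weight two and, for `k` in a finite set, `E_k` an elliptic curve over a number
field `F_k` that belongs to `f` and to the Artin representation `R_k` of `ℚ`.  Write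
`x_k(t, ε) = log |L(E_k, 3/2 + it + ε)| / log(1/ε)`.

1. For all real `τ_k`, all `C` and `η > 0` and all sufficiently small `ε > 0`:
`(∑_k c_k x_k(τ_k, ε))² ≤ ∑_{k,l} c_k c_l ⟨k, l⟩ + η` for all real `c_k`, `|c_k| ≤ C`.
2. If the `L(E_k, s)` have meromorphic continuations to neighbourhoods of the points `3/2 + iτ_k`, of
orders `m_k` at these points, then `(∑_k c_k m_k)² ≤ ∑_{k,l} c_k c_l ⟨k, l⟩` for all real `c_k`; and if the
`R_k` are irreducible, and pairwise inequivalent for equal heights `τ_k`, then `∑_k |m_k| ≤ 1`: at most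
one of the functions has a zero or a pole at its point, and it is simple.
3. Let `c_k` be integers such that the virtual representation `∑_k c_k R_k` is an irreducible
representation `S` (equal characters), of dimension at least three, or of any dimension if `t ≠ 0`.  Then
there is an `A < 1` with `|∑_k c_k x_k(t, ε)| ≤ A` for all small `ε > 0`, and if the `L(E_k, s)` have
meromorphic continuations to neighbourhoods of `3/2 + it`, of orders `m_k` at this point, then
`∑_k c_k m_k = 0`: `∏_k L(E_k, s)^{c_k}` has neither a zero nor a pole there.  For one curve: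
`L(E, s)` has the order zero if `R` is irreducible and `dim R ≥ 3` or `t ≠ 0`. -/
theorem result (N : ℕ) [NeZero N] (ψ : DirichletCharacter ℂ N)
    (f : CuspForm (Gamma1 N : Subgroup (GL (Fin 2) ℝ)) 2) (hf : IsNewform N ψ f)
    (κ : Type) [Fintype κ] (F : κ → Type) [∀ k, Field (F k)] [∀ k, NumberField (F k)]
    (X : ∀ k, CurveOf f (F k)) :
    (∀ τ : κ → ℝ,
      (∀ C η : ℝ, 0 < η → ∀ᶠ ε : ℝ in 𝓝[>] 0, ∀ c : κ → ℝ, (∀ k, |c k| ≤ C) →
        (∑ k, c k * size (X k).V (τ k) ε) ^ 2 ≤
          (∑ k, ∑ l, c k * c l * pairing (fun k => (X k).R) τ k l) + η) ∧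
      ∀ m : κ → ℤ, (∀ k, HasOrder (X k).V (τ k) (m k)) →
        (∀ c : κ → ℝ, (∑ k, c k * m k) ^ 2 ≤
          ∑ k, ∑ l, c k * c l * pairing (fun k => (X k).R) τ k l) ∧
        ((∀ k, (X k).R.IsIrreducible) →
          (∀ k l, k ≠ l → τ k = τ l → IsEmpty ((X k).R.Equiv (X l).R)) → ∑ k, |m k| ≤ 1)) ∧
    (∀ (t : ℝ) (c : κ → ℤ) (r : ℕ) (S : Representation ℂ GalQ (Fin r → ℂ)), IsArtin S →
      S.IsIrreducible → (∀ g, S.character g = ∑ k, (c k : ℂ) * (X k).R.character g) →
      (t ≠ 0 ∨ 3 ≤ r) →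
      (∃ A : ℝ, A < 1 ∧ ∀ᶠ ε : ℝ in 𝓝[>] 0, |∑ k, c k * size (X k).V t ε| ≤ A) ∧
      ∀ m : κ → ℤ, (∀ k, HasOrder (X k).V t (m k)) → ∑ k, c k * m k = 0) := by
  have hNf : X288.CX.Newf N 2 ψ f :=
    { neb := hf.neb
      one := hf.one
      mul := hf.mul
      pow := fun p j hp => by
        have h := hf.pow p j hp
        have e : (p : ℂ) ^ ((2 : ℤ) - 1) = p := by norm_num
        rw [e]
        exact h
      conj := hf.conj }
  have hbd : ∀ p : ℕ, p.Prime → ¬ p ∣ N → ‖W388.lamC f p‖ ≤ 2 := by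
    intro p hp hpN
    have h := hf.bound p hp hpN
    unfold W388.lamC
    have e : ((p : ℝ) ^ ((((2 : ℤ) : ℝ) - 1) / 2)) = Real.sqrt p := by
      rw [Real.sqrt_eq_rpow]
      congr 1
      push_cast
      norm_num
    have hp0 : 0 < Real.sqrt p := Real.sqrt_pos.2 (by exact_mod_cast hp.pos)
    rw [e, norm_div, Complex.norm_real, Real.norm_eq_abs, abs_of_pos hp0, div_le_iff₀ hp0]
    exact h
  have hell : ∀ k, (X k).E.IsElliptic := fun k => (X k).elliptic
  have hV : ∀ k, MinimalModels (X k).E (X k).V := fun k => (X k).minimal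
  have hopen : ∀ k, IsArtin (X k).R := fun k => (X k).artin
  have hatt : ∀ k, X288.CX.Belongs (X k).V f (X k).R := fun k => (X k).belongs
  have hgram : ∀ (τ : κ → ℝ) (C η : ℝ), 0 < η → ∀ᶠ ε : ℝ in 𝓝[>] 0, ∀ c : κ → ℝ,
      (∀ k, |c k| ≤ C) → (∑ k, c k * size (X k).V (τ k) ε) ^ 2 ≤
          (∑ k, ∑ l, c k * c l * pairing (fun k => (X k).R) τ k l) + η := by
    intro τ C η hη
    exact X288.CX.q_gram hNf hbd (E := fun k => (X k).E) hV (fun k => (X k).R) hopen hatt τ C hη
  have hord : ∀ (τ : κ → ℝ) (m : κ → ℤ), (∀ k, HasOrder (X k).V (τ k) (m k)) → ∀ c : κ → ℝ,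
      Tendsto (fun ε : ℝ => ∑ k, c k * size (X k).V (τ k) ε) (𝓝[>] 0)
        (𝓝 (-∑ k, c k * m k)) := by
    intro τ m hm c
    have h1 : Tendsto (fun ε : ℝ => ∑ k, c k * size (X k).V (τ k) ε) (𝓝[>] 0)
        (𝓝 (∑ k, c k * (-(m k : ℝ)))) :=
      tendsto_finsetSum _ fun k _ =>
        (X288.CX.q_order (E := fun k => (X k).E) hV τ hm k).const_mul (c k)
    have e : ∑ k, c k * (-(m k : ℝ)) = -∑ k, c k * m k := by
      rw [← Finset.sum_neg_distrib]
      exact Finset.sum_congr rfl fun k _ => by ring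
    rwa [e] at h1
  have hsq : ∀ (τ : κ → ℝ) (m : κ → ℤ), (∀ k, HasOrder (X k).V (τ k) (m k)) → ∀ c : κ → ℝ,
      (∑ k, c k * m k) ^ 2 ≤ ∑ k, ∑ l, c k * c l * pairing (fun k => (X k).R) τ k l := by
    intro τ m hm c
    refine le_of_forall_pos_le_add fun η hη => ?_
    have h1 := (hord τ m hm c).pow 2
    rw [neg_sq] at h1
    refine le_of_tendsto h1 ?_
    filter_upwards [hgram τ (∑ k, |c k|) η hη] with ε h4
    exact h4 c fun k => Finset.single_le_sum (f := fun k => |c k|) (fun k _ => abs_nonneg _)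
      (Finset.mem_univ k)
  refine ⟨fun τ => ⟨fun C η hη => hgram τ C η hη, fun m hm => ⟨hsq τ m hm, fun hirr hne => ?_⟩⟩,
    fun t c r S hS hSi hc h => ?_⟩
  · classical
    have h1 := hsq τ m hm fun k => m k
    have h2 : ∀ k l, (m k : ℝ) * m l * pairing (fun k => (X k).R) τ k l =
        if k = l then (m k : ℝ) ^ 2 else 0 := by
      intro k l
      have e : pairing (fun k => (X k).R) τ k l = X288.AR.hd (fun k => (X k).R) τ k l := rfl
      split_ifs with hkl
      · subst hkl
        rw [e, X288.AR.hd_self _ τ (hirr k)]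
        ring
      · rw [e, X288.AR.hd_ne _ τ (hirr k) (hirr l) (hne k l hkl), mul_zero]
    simp only [h2, Finset.sum_ite_eq, Finset.mem_univ, if_true] at h1
    have h3 : ∑ k, (m k : ℝ) * (m k : ℝ) = ∑ k, (m k : ℝ) ^ 2 :=
      Finset.sum_congr rfl fun k _ => by ring
    rw [h3] at h1
    have h4 : ∑ k, (m k : ℝ) ^ 2 ≤ 1 := by
      have h5 : 0 ≤ ∑ k, (m k : ℝ) ^ 2 := Finset.sum_nonneg fun k _ => sq_nonneg _
      by_contra h6
      rw [not_le] at h6
      nlinarith
    have h6 : ∑ k, (m k) ^ 2 ≤ 1 := by exact_mod_cast h4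
    refine le_trans (Finset.sum_le_sum fun k _ => ?_) h6
    rw [← sq_abs]
    rcases eq_or_ne (m k) 0 with h7 | h7
    · rw [h7]
      norm_num
    · have h8 := Int.one_le_abs h7
      nlinarith
  · have hc' : ∀ g, S.character g = ∑ k, (((c k : ℤ) : ℝ) : ℂ) * (X k).R.character g := by
      intro g
      rw [hc g]
      exact Finset.sum_congr rfl fun k _ => by push_cast; rfl
    obtain ⟨A, hA, hlim⟩ := X288.CX.q_virtual hNf hbd (E := fun k => (X k).E) hV
      (fun k => (X k).R) hopen hatt t (fun k => (c k : ℝ)) S hS hSi hc' h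
    refine ⟨⟨A, hA, hlim⟩, fun m hm => ?_⟩
    have h1 := hord (fun _ => t) m hm fun k => c k
    have h2 : |(-∑ k, (c k : ℝ) * (m k : ℝ))| ≤ A := le_of_tendsto h1.abs hlim
    rw [abs_neg] at h2
    by_contra hne
    have h3 : (1 : ℝ) ≤ |((∑ k, c k * m k : ℤ) : ℝ)| := by
      exact_mod_cast Int.one_le_abs hne
    push_cast at h3
    linarith

end Pool.Agent.Results.MP_7ed9c3_nt.QCurves
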