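import Pool.Agent.X288.L2.Thm
import Pool.Agent.X288.L2.Inst

/-!
# Modular elliptic curves over all number fields: the mean square bound for the orders on the line

`E : y² = x³ + a x + b` is an elliptic curve over `ℚ` with a newform (`IsModular`; by the modularity
theorem this is every elliptic curve over `ℚ`, and for the quadratic twists of `X_0(11)` and `X_0(14)` it
is proved here).  Over a number field `F` nothing is known about the continuation of the `L`-functions of
`E` and of its twists `E_D`, `D ∈ F^*`, in general.  The theorem bounds the logarithms of these functions
near the line `Re s = 3/2`, and the orders of their continuations at the points of the line, if there are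
any.  Let `χ_D` be the character of the absolute Galois group of `ℚ` induced from the quadratic character
of `F(√D)/F`.  For every finite family of fields `F_k`, of numbers `D_k`, of heights `τ_k` and of real
coefficients `c_k`,

`(∑ c_k ord L(E_{D_k}/F_k, 3/2 + iτ_k))² ≤ mean of |∑ c_k χ_{D_k} q^{-iτ_k}|²`,

the real part being taken of the powers.  For one field `F`, one `D`, and `c = ord` one obtains: **the
sum of the squares of the orders of `L(E_D/F, s)` at all the points of the line `Re s = 3/2` is at most
the mean of `χ_D²`** (for `D = 1` the number of orbits of the Galois group on the pairs of embeddings of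
`F`); in particular only finitely many points of the line are zeros or poles.

The proof uses the theorem of Rankin and Selberg for the newform (the mean of `a_p²/p` is one) instead of
Hasse's bound `a_p² ≤ 4 p`, and Chebotarev's theorem with heights.
-/

set_option autoImplicit false

namespace Pool.Agent.Results.MP_7ed9c3_nt.SquareMeanRelations

open Pool.Agent.X288.L2 (EC SquareRelations)
open Pool.Agent.Y722.EP (IsModular)

/-- **The mean square bound.**  For every modular elliptic curve `E : y² = x³ + a x + b` over `ℚ` the
square relations hold, for all finite families of twists of `E` over number fields, of heights and of real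
coefficients; and the quadratic twists of `X_0(11) : y² = x³ - 13392 x - 1080432` and of
`X_0(14) : y² = x³ + 5805 x - 285714` are modular. -/
theorem result :
    (∀ a b : ℤ, 4 * a ^ 3 + 27 * b ^ 2 ≠ 0 → IsModular a b → SquareRelations (EC ℚ a b)) ∧
    ∀ g : ℤ, g ≠ 0 → IsModular (-13392 * g ^ 2) (-1080432 * g ^ 3) ∧
      IsModular (5805 * g ^ 2) (-285714 * g ^ 3) := by
  refine ⟨fun a b hab hmod => ?_, fun g hg =>
    ⟨Pool.Agent.X288.L2.modular11 hg, Pool.Agent.X288.L2.modular14 hg⟩⟩
  intro ι _ F _ _ _ X U _ hU hker τ c
  exact Pool.Agent.X288.L2.relations_sq hab hmod F X U hU hker τ c

end Pool.Agent.Results.MP_7ed9c3_nt.SquareMeanRelations
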